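import Mathlib
import Pool.Agent.Lib.MP_eb6d87_lc.A1
import Pool.Agent.Lib.MP_eb6d87_lc.Par

section

/-!
The homogeneous evaluation of straight line programs.
-/

set_option autoImplicit false

namespace Pool.Agent.HS

variable {R R' : Type} [CommSemiring R] [CommSemiring R']

/-- The new register of one step of the homogeneous evaluation. -/
private def A2v (h : R) (X : ℕ → R) (q : List (R × ℕ)) (s : ℕ) : Ins → R × ℕ
  | .cst c => ((c : R), 0)
  | .add i j => ((q.getD i (0, 0)).1 * h ^ (q.getD j (0, 0)).2 +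
      (q.getD j (0, 0)).1 * h ^ (q.getD i (0, 0)).2, (q.getD i (0, 0)).2 + (q.getD j (0, 0)).2)
  | .mul i j => ((q.getD i (0, 0)).1 * (q.getD j (0, 0)).1,
      (q.getD i (0, 0)).2 + (q.getD j (0, 0)).2)
  | .pw i c => ((q.getD i (0, 0)).1 ^ c, c * (q.getD i (0, 0)).2)
  | .ex _ => (X s, 1)

/-- The new register of one step of the evaluation. -/
private def A2w (X : ℕ → R) (q : List R) (s : ℕ) : Ins → R
  | .cst c => (c : R)
  | .add i j => q.getD i 0 + q.getD j 0
  | .mul i j => q.getD i 0 * q.getD j 0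
  | .pw i c => q.getD i 0 ^ c
  | .ex _ => X s

private theorem A2_step (h : R) (X : ℕ → R) (q : List (R × ℕ)) (s : ℕ) (a : Ins) :
    (hevStep h X (q, s) a).1 = q ++ [A2v h X q s a] := by
  cases a <;> rfl

private theorem A2_pstep (X : ℕ → R) (q : List R) (s : ℕ) (a : Ins) :
    (pevStep X (q, s) a).1 = q ++ [A2w X q s a] := by
  cases a <;> rfl

private theorem A2_getD {α : Type} (l : List α) (x d : α) (k : ℕ) : (l ++ [x]).getD k d =
    if k < l.length then l.getD k d else if k = l.length then x else d := by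
  rcases lt_trichotomy k l.length with h | h | h
  · rw [if_pos h, List.getD_append _ _ _ _ h]
  · rw [if_neg (by omega), if_pos h, List.getD_append_right _ _ _ _ (by omega), h, Nat.sub_self]
    rfl
  · rw [if_neg (by omega), if_neg (by omega), List.getD_eq_default]
    rw [List.length_append, List.length_singleton]
    omega

private theorem A2_count (h : R) (X : ℕ → R) (p : List Ins) :
    (p.foldl (hevStep h X) ([], 0)).2 = nex p := by
  induction p using List.reverseRecOn with
  | nil => rfl
  | append_singleton p a ih =>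
    rw [List.foldl_append, List.foldl_cons, List.foldl_nil, nex_append, ← ih]
    cases a <;> rfl

theorem hev_append_single (h : R) (X : ℕ → R) (p : List Ins) (a : Ins) :
    hev h X (p ++ [a]) = (hevStep h X (hev h X p, nex p) a).1 := by
  unfold hev
  rw [List.foldl_append, List.foldl_cons, List.foldl_nil, ← A2_count h X p]

private theorem A2_hev (h : R) (X : ℕ → R) (p : List Ins) (a : Ins) :
    hev h X (p ++ [a]) = hev h X p ++ [A2v h X (hev h X p) (nex p) a] := by
  rw [hev_append_single, A2_step]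

private theorem A2_pev (X : ℕ → R) (p : List Ins) (a : Ins) :
    pev X (p ++ [a]) = pev X p ++ [A2w X (pev X p) (nex p) a] := by
  rw [pev_append_single, A2_pstep]

theorem hev_length (h : R) (X : ℕ → R) (p : List Ins) : (hev h X p).length = p.length := by
  induction p using List.reverseRecOn with
  | nil => rfl
  | append_singleton p a ih =>
    rw [A2_hev, List.length_append, List.length_append, ih]
    rfl

private theorem A2_hget (h : R) (X : ℕ → R) (p : List Ins) (a : Ins) (k : ℕ) :
    (hev h X (p ++ [a])).getD k (0, 0) = if k < p.length then (hev h X p).getD k (0, 0)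
      else if k = p.length then A2v h X (hev h X p) (nex p) a else (0, 0) := by
  rw [A2_hev, A2_getD, hev_length]

private theorem A2_pget (X : ℕ → R) (p : List Ins) (a : Ins) (k : ℕ) :
    (pev X (p ++ [a])).getD k 0 = if k < p.length then (pev X p).getD k 0
      else if k = p.length then A2w X (pev X p) (nex p) a else 0 := by
  rw [A2_pev, A2_getD, pev_length]

/-- The degrees do not depend on the ring. -/
theorem hev_snd (h : R) (X : ℕ → R) (p : List Ins) (k : ℕ) :
    ((hev h X p).getD k (0, 0)).2 = dg p k := by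
  unfold dg
  induction p using List.reverseRecOn generalizing k with
  | nil => rfl
  | append_singleton p a ih =>
    rw [A2_hget, A2_hget]
    split_ifs with h1 h2
    · exact ih k
    · cases a with
      | cst c => rfl
      | add i j =>
        show (_ : ℕ) + _ = _ + _
        rw [ih i, ih j]
      | mul i j =>
        show (_ : ℕ) + _ = _ + _
        rw [ih i, ih j]
      | pw i c =>
        show c * _ = c * _
        rw [ih i]
      | ex i => rfl
    · rfl

/-- The degree of the new register. -/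
private def A2d (p : List Ins) : Ins → ℕ
  | .cst _ => 0
  | .add i j => dg p i + dg p j
  | .mul i j => dg p i + dg p j
  | .pw i c => c * dg p i
  | .ex _ => 1

private theorem A2_dget (p : List Ins) (a : Ins) (k : ℕ) :
    dg (p ++ [a]) k = if k < p.length then dg p k else if k = p.length then A2d p a else 0 := by
  show ((hev (1 : ℕ) (fun _ => 1) (p ++ [a])).getD k (0, 0)).2 = _
  rw [A2_hget]
  split_ifs with h1 h2
  · rfl
  · cases a <;> rfl
  · rfl

private theorem A2_dnil (k : ℕ) : dg [] k = 0 := rfl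

/-- The meaning of the homogeneous evaluation: with `X s = h * ξ s`. Induction on `p` with
`List.reverseRecOn`, simultaneously for all `k` (for `k ≥ p.length` both sides are `0`); in the case of a sum
`h ^ a * x * h ^ b + h ^ b * y * h ^ a = h ^ (a + b) * (x + y)`. -/
theorem hev_fst (h : R) (ξ : ℕ → R) (p : List Ins) (k : ℕ) :
    ((hev h (fun s => h * ξ s) p).getD k (0, 0)).1 = h ^ dg p k * (pev ξ p).getD k 0 := by
  induction p using List.reverseRecOn generalizing k with
  | nil =>
    show (0 : R) = h ^ dg [] k * 0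
    rw [mul_zero]
  | append_singleton p a ih =>
    rw [A2_hget, A2_pget, A2_dget]
    split_ifs with h1 h2
    · exact ih k
    · cases a with
      | cst c =>
        show (c : R) = h ^ 0 * (c : R)
        rw [pow_zero, one_mul]
      | add i j =>
        show ((hev h (fun s => h * ξ s) p).getD i (0, 0)).1 *
            h ^ ((hev h (fun s => h * ξ s) p).getD j (0, 0)).2 +
          ((hev h (fun s => h * ξ s) p).getD j (0, 0)).1 *
            h ^ ((hev h (fun s => h * ξ s) p).getD i (0, 0)).2 =
          h ^ (dg p i + dg p j) * ((pev ξ p).getD i 0 + (pev ξ p).getD j 0)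
        rw [ih i, ih j, hev_snd, hev_snd, pow_add]
        ring
      | mul i j =>
        show ((hev h (fun s => h * ξ s) p).getD i (0, 0)).1 *
          ((hev h (fun s => h * ξ s) p).getD j (0, 0)).1 =
          h ^ (dg p i + dg p j) * ((pev ξ p).getD i 0 * (pev ξ p).getD j 0)
        rw [ih i, ih j, pow_add]
        ring
      | pw i c =>
        show ((hev h (fun s => h * ξ s) p).getD i (0, 0)).1 ^ c =
          h ^ (c * dg p i) * (pev ξ p).getD i 0 ^ c
        rw [ih i, mul_pow, ← pow_mul, mul_comm c]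
      | ex i =>
        show h * ξ (nex p) = h ^ 1 * ξ (nex p)
        rw [pow_one]
    · rw [mul_zero]

private theorem A2_map_getD {α β : Type} (f : α → β) (l : List α) (d : α) (k : ℕ) :
    (l.map f).getD k (f d) = f (l.getD k d) := by
  rw [List.getD_map]

/-- Ring homomorphisms. -/
theorem map_hev (φ : R →+* R') (h : R) (X : ℕ → R) (p : List Ins) :
    (hev h X p).map (fun q => (φ q.1, q.2)) = hev (φ h) (fun s => φ (X s)) p := by
  induction p using List.reverseRecOn with
  | nil => rfl
  | append_singleton p a ih =>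
    rw [A2_hev, A2_hev, List.map_append, ih, List.map_cons, List.map_nil]
    congr 2
    have hg : ∀ i, (hev (φ h) (fun s => φ (X s)) p).getD i (0, 0) =
        (φ ((hev h X p).getD i (0, 0)).1, ((hev h X p).getD i (0, 0)).2) := by
      intro i
      rw [← ih]
      have h0 : ((0 : R'), (0 : ℕ)) = (fun q : R × ℕ => (φ q.1, q.2)) (0, 0) := by
        show ((0 : R'), (0 : ℕ)) = (φ 0, 0)
        rw [map_zero]
      rw [h0, A2_map_getD (fun q : R × ℕ => (φ q.1, q.2))]
    cases a with
    | cst c =>
      show (φ (c : R), 0) = ((c : R'), 0)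
      rw [map_natCast]
    | add i j =>
      unfold A2v
      simp only [hg, map_add, map_mul, map_pow]
    | mul i j =>
      unfold A2v
      simp only [hg, map_mul]
    | pw i c =>
      unfold A2v
      simp only [hg, map_pow]
    | ex i => rfl

theorem map_hev_getD (φ : R →+* R') (h : R) (X : ℕ → R) (p : List Ins) (k : ℕ) :
    φ (((hev h X p).getD k (0, 0)).1) = ((hev (φ h) (fun s => φ (X s)) p).getD k (0, 0)).1 := by
  rw [← map_hev]
  have h0 : ((0 : R'), (0 : ℕ)) = (fun q : R × ℕ => (φ q.1, q.2)) (0, 0) := by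
    show ((0 : R'), (0 : ℕ)) = (φ 0, 0)
    rw [map_zero]
  rw [h0, A2_map_getD (fun q : R × ℕ => (φ q.1, q.2))]

theorem map_Qh (φ : R →+* R') (h : R) (X : ℕ → R) (p : List Ins) (i j : ℕ) :
    φ (Qh h X p i j) = Qh (φ h) (fun s => φ (X s)) p i j := by
  unfold Qh
  rw [map_mul, map_pow, map_hev_getD]

/-- Only the values `X s` for `s < nex p` are used. -/
theorem hev_congr (h : R) {X Y : ℕ → R} (p : List Ins) (e : ∀ s < nex p, X s = Y s) :
    hev h X p = hev h Y p := by
  induction p using List.reverseRecOn with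
  | nil => rfl
  | append_singleton p a ih =>
    rw [nex_append] at e
    have ih' := ih (fun s hs => e s (by omega))
    rw [A2_hev, A2_hev, ih']
    congr 2
    cases a with
    | cst c => rfl
    | add i j => rfl
    | mul i j => rfl
    | pw i c => rfl
    | ex i =>
      show (X (nex p), 1) = (Y (nex p), 1)
      rw [e (nex p) (Nat.lt_succ_self _)]

private theorem A2_append_getD (h : R) (X : ℕ → R) (p q : List Ins) {k : ℕ}
    (hk : k < p.length) : (hev h X (p ++ q)).getD k (0, 0) = (hev h X p).getD k (0, 0) := by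
  induction q using List.reverseRecOn with
  | nil => rw [List.append_nil]
  | append_singleton q a ih =>
    rw [← List.append_assoc, A2_hget, if_pos (by rw [List.length_append]; omega), ih]

/-- The source number `j` depends only on `X s` for `s < j` (as in `pev_src_congr`). -/
theorem hev_src_congr (h : R) {X Y : ℕ → R} {p : List Ins} (hp : WF p) {j : ℕ} (hj : j < nex p)
    (e : ∀ s < j, X s = Y s) :
    (hev h X p).getD (src p j) (0, 0) = (hev h Y p).getD (src p j) (0, 0) := by
  obtain ⟨q, r, i, hq, hn, hs⟩ := exists_split p hj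
  have hok : i < q.length := hp q r (Ins.ex i) hq
  rw [hs, hq, A2_append_getD h X q _ hok, A2_append_getD h Y q _ hok,
    hev_congr h q (fun s hs => e s (by omega))]

/-- The degrees are at most `2 ^ psize p`: an instruction of size `s` multiplies the maximum of `1` and the
degrees by at most `2 ^ s` (`c < 2 ^ Nat.size c`). -/
theorem dg_le (p : List Ins) (k : ℕ) : dg p k ≤ 2 ^ psize p := by
  induction p using List.reverseRecOn generalizing k with
  | nil => exact Nat.zero_le _
  | append_singleton p a ih =>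
    have hs : psize (p ++ [a]) = psize p + a.size := by
      rw [psize_append]
      show psize p + (a.size + 0) = _
      rw [Nat.add_zero]
    rw [hs, A2_dget]
    have hmono : 2 ^ psize p ≤ 2 ^ (psize p + a.size) :=
      Nat.pow_le_pow_right (by norm_num) (by omega)
    split_ifs with h1 h2
    · exact (ih k).trans hmono
    · cases a with
      | cst c => exact Nat.zero_le _
      | add i j =>
        show dg p i + dg p j ≤ 2 ^ (psize p + 1)
        rw [pow_succ]
        have := ih i
        have := ih j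
        omega
      | mul i j =>
        show dg p i + dg p j ≤ 2 ^ (psize p + 1)
        rw [pow_succ]
        have := ih i
        have := ih j
        omega
      | pw i c =>
        show c * dg p i ≤ 2 ^ (psize p + (Nat.size c + 1))
        calc c * dg p i ≤ 2 ^ Nat.size c * 2 ^ psize p :=
              Nat.mul_le_mul (Nat.lt_size_self c).le (ih i)
          _ = 2 ^ (psize p + Nat.size c) := by rw [← pow_add, add_comm]
          _ ≤ 2 ^ (psize p + (Nat.size c + 1)) := Nat.pow_le_pow_right (by norm_num) (by omega)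
      | ex i => exact Nat.one_le_two_pow
    · exact Nat.zero_le _

/-- The values at `X = 1` are at most `2 ^ 2 ^ psize p`. Same induction (`Nat.lt_size_self`). -/
theorem pev_one_le (p : List Ins) (k : ℕ) :
    (pev (fun _ => (1 : ℕ)) p).getD k 0 ≤ 2 ^ 2 ^ psize p := by
  induction p using List.reverseRecOn generalizing k with
  | nil => exact Nat.zero_le _
  | append_singleton p a ih =>
    have hs : psize (p ++ [a]) = psize p + a.size := by
      rw [psize_append]
      show psize p + (a.size + 0) = _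
      rw [Nat.add_zero]
    rw [hs, A2_pget]
    have hmono : 2 ^ 2 ^ psize p ≤ 2 ^ 2 ^ (psize p + a.size) :=
      Nat.pow_le_pow_right (by norm_num) (Nat.pow_le_pow_right (by norm_num) (by omega))
    split_ifs with h1 h2
    · exact (ih k).trans hmono
    · cases a with
      | cst c =>
        show c ≤ 2 ^ 2 ^ (psize p + (Nat.size c + 1))
        refine (Nat.lt_size_self c).le.trans (Nat.pow_le_pow_right (by norm_num) ?_)
        exact (Nat.lt_two_pow_self (n := Nat.size c)).le.trans
          (Nat.pow_le_pow_right (by norm_num) (by omega))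
      | add i j =>
        show (pev (fun _ => (1 : ℕ)) p).getD i 0 + (pev (fun _ => (1 : ℕ)) p).getD j 0 ≤
          2 ^ 2 ^ (psize p + 1)
        have e1 : 2 ^ 2 ^ psize p + 2 ^ 2 ^ psize p ≤ 2 ^ 2 ^ (psize p + 1) := by
          calc 2 ^ 2 ^ psize p + 2 ^ 2 ^ psize p = 2 ^ (2 ^ psize p + 1) := by ring
            _ ≤ 2 ^ 2 ^ (psize p + 1) := by
              refine Nat.pow_le_pow_right (by norm_num) ?_
              have := Nat.one_le_two_pow (n := psize p)
              rw [pow_succ]
              omega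
        exact (Nat.add_le_add (ih i) (ih j)).trans e1
      | mul i j =>
        show (pev (fun _ => (1 : ℕ)) p).getD i 0 * (pev (fun _ => (1 : ℕ)) p).getD j 0 ≤
          2 ^ 2 ^ (psize p + 1)
        refine (Nat.mul_le_mul (ih i) (ih j)).trans (le_of_eq ?_)
        rw [← pow_add, pow_succ 2 (psize p)]
        congr 1
        ring
      | pw i c =>
        show (pev (fun _ => (1 : ℕ)) p).getD i 0 ^ c ≤ 2 ^ 2 ^ (psize p + (Nat.size c + 1))
        calc (pev (fun _ => (1 : ℕ)) p).getD i 0 ^ c ≤ (2 ^ 2 ^ psize p) ^ c :=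
              Nat.pow_le_pow_left (ih i) c
          _ = 2 ^ (2 ^ psize p * c) := by rw [← pow_mul]
          _ ≤ 2 ^ 2 ^ (psize p + (Nat.size c + 1)) := by
            refine Nat.pow_le_pow_right (by norm_num) ?_
            calc 2 ^ psize p * c ≤ 2 ^ psize p * 2 ^ Nat.size c :=
                  Nat.mul_le_mul_left _ (Nat.lt_size_self c).le
              _ = 2 ^ (psize p + Nat.size c) := by rw [← pow_add]
              _ ≤ 2 ^ (psize p + (Nat.size c + 1)) :=
                  Nat.pow_le_pow_right (by norm_num) (by omega)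
      | ex i => exact Nat.one_le_two_pow
    · exact Nat.zero_le _

/-- The size of the numbers in the homogeneous evaluation: if `h` and all `X s` are at most `Y` then the register
number `k` is at most the value at `1` times `Y ^ dg p k`. Induction as in `hev_fst`. -/
theorem hev_le {h Y : ℕ} {X : ℕ → ℕ} (hY : 1 ≤ Y) (hh : h ≤ Y) (hX : ∀ s, X s ≤ Y) (p : List Ins)
    (k : ℕ) : ((hev h X p).getD k (0, 0)).1 ≤ (pev (fun _ => (1 : ℕ)) p).getD k 0 * Y ^ dg p k := by
  induction p using List.reverseRecOn generalizing k with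
  | nil => exact Nat.zero_le _
  | append_singleton p a ih =>
    rw [A2_hget, A2_pget, A2_dget]
    split_ifs with h1 h2
    · exact ih k
    · cases a with
      | cst c =>
        show c ≤ c * Y ^ 0
        rw [pow_zero, mul_one]
      | add i j =>
        show ((hev h X p).getD i (0, 0)).1 * h ^ ((hev h X p).getD j (0, 0)).2 +
          ((hev h X p).getD j (0, 0)).1 * h ^ ((hev h X p).getD i (0, 0)).2 ≤
          ((pev (fun _ => (1 : ℕ)) p).getD i 0 + (pev (fun _ => (1 : ℕ)) p).getD j 0) *
            Y ^ (dg p i + dg p j)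
        rw [hev_snd, hev_snd]
        calc ((hev h X p).getD i (0, 0)).1 * h ^ dg p j +
              ((hev h X p).getD j (0, 0)).1 * h ^ dg p i
            ≤ ((pev (fun _ => (1 : ℕ)) p).getD i 0 * Y ^ dg p i) * Y ^ dg p j +
              ((pev (fun _ => (1 : ℕ)) p).getD j 0 * Y ^ dg p j) * Y ^ dg p i :=
              Nat.add_le_add (Nat.mul_le_mul (ih i) (Nat.pow_le_pow_left hh _))
                (Nat.mul_le_mul (ih j) (Nat.pow_le_pow_left hh _))
          _ = ((pev (fun _ => (1 : ℕ)) p).getD i 0 + (pev (fun _ => (1 : ℕ)) p).getD j 0) *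
            Y ^ (dg p i + dg p j) := by
              rw [pow_add]
              ring
      | mul i j =>
        show ((hev h X p).getD i (0, 0)).1 * ((hev h X p).getD j (0, 0)).1 ≤
          ((pev (fun _ => (1 : ℕ)) p).getD i 0 * (pev (fun _ => (1 : ℕ)) p).getD j 0) *
            Y ^ (dg p i + dg p j)
        calc ((hev h X p).getD i (0, 0)).1 * ((hev h X p).getD j (0, 0)).1
            ≤ ((pev (fun _ => (1 : ℕ)) p).getD i 0 * Y ^ dg p i) *
              ((pev (fun _ => (1 : ℕ)) p).getD j 0 * Y ^ dg p j) := Nat.mul_le_mul (ih i) (ih j)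
          _ = ((pev (fun _ => (1 : ℕ)) p).getD i 0 * (pev (fun _ => (1 : ℕ)) p).getD j 0) *
            Y ^ (dg p i + dg p j) := by
              rw [pow_add]
              ring
      | pw i c =>
        show ((hev h X p).getD i (0, 0)).1 ^ c ≤
          (pev (fun _ => (1 : ℕ)) p).getD i 0 ^ c * Y ^ (c * dg p i)
        calc ((hev h X p).getD i (0, 0)).1 ^ c
            ≤ ((pev (fun _ => (1 : ℕ)) p).getD i 0 * Y ^ dg p i) ^ c :=
              Nat.pow_le_pow_left (ih i) c
          _ = (pev (fun _ => (1 : ℕ)) p).getD i 0 ^ c * Y ^ (c * dg p i) := by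
              rw [mul_pow, ← pow_mul, mul_comm c]
      | ex i =>
        show X (nex p) ≤ 1 * Y ^ 1
        rw [one_mul, pow_one]
        exact hX _
    · exact Nat.zero_le _

theorem dg_le_dT {p : List Ins} {i j : ℕ} (h : j ≤ i) : dg p (src p j) ≤ dT p i :=
  Finset.single_le_sum (f := fun j => dg p (src p j)) (fun _ _ => Nat.zero_le _)
    (Finset.mem_range.mpr (Nat.lt_succ_of_le h))

theorem dT_le (p : List Ins) (i : ℕ) : dT p i ≤ (i + 1) * 2 ^ psize p := by
  unfold dT
  have h1 := Finset.sum_le_card_nsmul (Finset.range (i + 1)) (fun j => dg p (src p j))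
    (2 ^ psize p) (fun j _ => dg_le p (src p j))
  rwa [Finset.card_range, smul_eq_mul] at h1

end Pool.Agent.HS
end

section

/-!
The polynomials of a straight line program: degrees, variables, norm.
-/

set_option autoImplicit false

namespace Pool.Agent.HS

open MvPolynomial

private theorem A3_norm1_eq {P : MvPolynomial ℕ ℤ} {S : Finset (ℕ →₀ ℕ)} (h : P.support ⊆ S) :
    norm1 P = ∑ m ∈ S, (P.coeff m).natAbs := by
  unfold norm1
  apply Finset.sum_subset h
  intro m _ hm
  rw [notMem_support_iff.mp hm, Int.natAbs_zero]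

theorem norm1_add_le (P Q : MvPolynomial ℕ ℤ) : norm1 (P + Q) ≤ norm1 P + norm1 Q := by
  classical
  rw [A3_norm1_eq (S := P.support ∪ Q.support) support_add,
    A3_norm1_eq (P := P) (S := P.support ∪ Q.support) Finset.subset_union_left,
    A3_norm1_eq (P := Q) (S := P.support ∪ Q.support) Finset.subset_union_right,
    ← Finset.sum_add_distrib]
  apply Finset.sum_le_sum
  intro m _
  rw [coeff_add]
  exact Int.natAbs_add_le _ _

theorem norm1_neg (P : MvPolynomial ℕ ℤ) : norm1 (-P) = norm1 P := by
  unfold norm1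
  rw [support_neg]
  apply Finset.sum_congr rfl
  intro m _
  rw [coeff_neg, Int.natAbs_neg]

theorem norm1_sub_le (P Q : MvPolynomial ℕ ℤ) : norm1 (P - Q) ≤ norm1 P + norm1 Q := by
  rw [sub_eq_add_neg, ← norm1_neg Q]
  exact norm1_add_le _ _

theorem norm1_C (c : ℤ) : norm1 (C c) = c.natAbs := by
  classical
  rw [A3_norm1_eq (P := C c) (S := {0}) ?_]
  · rw [Finset.sum_singleton, coeff_zero_C]
  · intro m hm
    rw [mem_support_iff, coeff_C] at hm
    rw [Finset.mem_singleton]
    by_contra h
    exact hm (if_neg (fun h' => h h'.symm))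

theorem norm1_C_mul (c : ℤ) (P : MvPolynomial ℕ ℤ) : norm1 (C c * P) = c.natAbs * norm1 P := by
  rw [A3_norm1_eq (P := C c * P) (S := P.support) ?_]
  · unfold norm1
    rw [Finset.mul_sum]
    apply Finset.sum_congr rfl
    intro m _
    rw [coeff_C_mul, Int.natAbs_mul]
  · intro m hm
    rw [mem_support_iff, coeff_C_mul] at hm
    rw [mem_support_iff]
    intro h
    exact hm (by rw [h, mul_zero])

theorem norm1_sum_le {ι : Type} (s : Finset ι) (P : ι → MvPolynomial ℕ ℤ) :
    norm1 (∑ i ∈ s, P i) ≤ ∑ i ∈ s, norm1 (P i) := by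
  classical
  induction s using Finset.induction_on with
  | empty =>
    rw [Finset.sum_empty, Finset.sum_empty]
    unfold norm1
    simp
  | insert a s ha ih =>
    rw [Finset.sum_insert ha, Finset.sum_insert ha]
    exact (norm1_add_le _ _).trans (by omega)

/-- The norm of a polynomial with coefficients in the natural numbers is its value at `1`. -/
theorem norm1_map (P : MvPolynomial ℕ ℕ) :
    norm1 (map (Nat.castRingHom ℤ) P) = eval (fun _ => 1) P := by
  rw [A3_norm1_eq (P := map (Nat.castRingHom ℤ) P) (S := P.support) ?_]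
  · rw [eval_eq]
    apply Finset.sum_congr rfl
    intro m _
    rw [coeff_map]
    simp
  · intro m hm
    rw [mem_support_iff, coeff_map] at hm
    rw [mem_support_iff]
    intro h
    exact hm (by rw [h, map_zero])

/-- `PP p k` is the image of the polynomial over `ℕ` (`map_pev_getD` for `map (Nat.castRingHom ℤ)`), so its norm
is the value of the program at `X = 1` (`norm1_map`, `map_pev_getD` for `eval`). -/
theorem norm1_PP (p : List Ins) (k : ℕ) : norm1 (PP p k) = (pev (fun _ => (1 : ℕ)) p).getD k 0 := by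
  have h1 := map_pev_getD (map (Nat.castRingHom ℤ) : MvPolynomial ℕ ℕ →+* MvPolynomial ℕ ℤ)
    (fun s => (X s : MvPolynomial ℕ ℕ)) p k
  have h2 := map_pev_getD (eval (fun _ => 1) : MvPolynomial ℕ ℕ →+* ℕ)
    (fun s => (X s : MvPolynomial ℕ ℕ)) p k
  simp only [map_X] at h1
  simp only [eval_X] at h2
  unfold PP
  rw [← h1, norm1_map, h2]

/-- `map_pev_getD` for `aeval X` / `eval₂Hom`. -/
theorem aeval_PP {R : Type} [CommRing R] (X : ℕ → R) (p : List Ins) (k : ℕ) :
    aeval X (PP p k) = (pev X p).getD k 0 := by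
  have h1 := map_pev_getD (aeval X : MvPolynomial ℕ ℤ →ₐ[ℤ] R).toRingHom
    (fun s => (MvPolynomial.X s : MvPolynomial ℕ ℤ)) p k
  unfold PP
  have h2 : (fun s => (aeval X : MvPolynomial ℕ ℤ →ₐ[ℤ] R).toRingHom
      (MvPolynomial.X s : MvPolynomial ℕ ℤ)) = X := by
    funext s
    exact aeval_X X s
  rw [h2] at h1
  exact h1

/-- The degree in every variable is at most `2 ^ psize p` (`degreeOf_add_le`, `degreeOf_mul_le`, `degreeOf_pow_le`;
the maximum of `1` and the degrees is multiplied by at most `2 ^ size` by every instruction). -/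
theorem degreeOf_PP_le (p : List Ins) (k s : ℕ) : degreeOf s (PP p k) ≤ 2 ^ psize p := by
  unfold PP
  induction p using List.reverseRecOn generalizing k with
  | nil =>
    have h : (pev (fun s => (MvPolynomial.X s : MvPolynomial ℕ ℤ)) []).getD k 0 = 0 := by
      simp [pev]
    rw [h, degreeOf_zero]
    exact Nat.zero_le _
  | append_singleton p a ih =>
    have hlen := pev_length (fun s => (MvPolynomial.X s : MvPolynomial ℕ ℤ)) p
    rw [psize_append, pow_add]
    have hsz : psize [a] = a.size := by simp [psize]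
    rw [hsz]
    have hone : 1 ≤ 2 ^ a.size := Nat.one_le_two_pow
    have hone' : 1 ≤ 2 ^ psize p := Nat.one_le_two_pow
    have hsize : 1 ≤ a.size := by cases a <;> simp [Ins.size]
    have htwo : 2 ≤ 2 ^ a.size := by
      calc 2 = 2 ^ 1 := by norm_num
        _ ≤ 2 ^ a.size := Nat.pow_le_pow_right (by norm_num) hsize
    rcases lt_trichotomy k p.length with hk | hk | hk
    · rw [pev_append_getD _ _ _ hk]
      exact (ih k).trans (Nat.le_mul_of_pos_right _ hone)
    · have key : ∀ N : MvPolynomial ℕ ℤ, degreeOf s N ≤ 2 ^ psize p * 2 ^ a.size →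
          degreeOf s ((pev (fun s => (MvPolynomial.X s : MvPolynomial ℕ ℤ)) p ++ [N]).getD k 0) ≤
            2 ^ psize p * 2 ^ a.size := by
        intro N hN
        rw [hk, ← hlen, List.getD_append_right _ _ _ _ le_rfl, Nat.sub_self, List.getD_cons_zero]
        exact hN
      rw [pev_append_single]
      cases a with
      | cst c =>
        apply key
        have h : ((c : ℕ) : MvPolynomial ℕ ℤ) = C (c : ℤ) := by simp
        rw [h, degreeOf_C]
        exact Nat.zero_le _
      | add i j =>
        apply key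
        refine (degreeOf_add_le _ _ _).trans (max_le ?_ ?_)
        · exact (ih i).trans (Nat.le_mul_of_pos_right _ hone)
        · exact (ih j).trans (Nat.le_mul_of_pos_right _ hone)
      | mul i j =>
        apply key
        dsimp only
        refine (degreeOf_mul_le _ _ _).trans ?_
        have h1 := ih i
        have h2 := ih j
        have h3 : 2 ^ psize p * 2 ≤ 2 ^ psize p * 2 ^ (Ins.mul i j).size :=
          Nat.mul_le_mul_left _ htwo
        omega
      | pw i c =>
        apply key
        dsimp only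
        refine (degreeOf_pow_le _ _ _).trans ?_
        have h1 := ih i
        have h2 : c ≤ 2 ^ (Ins.pw i c).size := by
          have h3 := Nat.lt_size_self c
          have h4 : 2 ^ Nat.size c ≤ 2 ^ (Ins.pw i c).size :=
            Nat.pow_le_pow_right (by norm_num) (by simp [Ins.size])
          omega
        calc c * _ ≤ 2 ^ (Ins.pw i c).size * 2 ^ psize p := Nat.mul_le_mul h2 h1
          _ = 2 ^ psize p * 2 ^ (Ins.pw i c).size := Nat.mul_comm _ _
      | ex i =>
        apply key
        rw [degreeOf_X]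
        have h3 : 1 ≤ 2 ^ psize p * 2 ^ (Ins.ex i).size := Nat.mul_pos hone' hone
        split_ifs
        · exact h3
        · exact Nat.zero_le _
    · have h0 : (pev (fun s => (MvPolynomial.X s : MvPolynomial ℕ ℤ)) (p ++ [a])).getD k 0 = 0 := by
        apply List.getD_eq_default
        rw [pev_length]
        simp
        omega
      rw [h0, degreeOf_zero]
      exact Nat.zero_le _

/-- Only the variables `s < nex p` occur. -/
theorem degreeOf_PP_eq_zero (p : List Ins) (k : ℕ) {s : ℕ} (hs : nex p ≤ s) :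
    degreeOf s (PP p k) = 0 := by
  unfold PP
  induction p using List.reverseRecOn generalizing k with
  | nil =>
    have h : (pev (fun s => (MvPolynomial.X s : MvPolynomial ℕ ℤ)) []).getD k 0 = 0 := by
      simp [pev]
    rw [h, degreeOf_zero]
  | append_singleton p a ih =>
    have hlen := pev_length (fun s => (MvPolynomial.X s : MvPolynomial ℕ ℤ)) p
    rw [nex_append] at hs
    have ih' := fun k => ih k (by omega)
    rcases lt_trichotomy k p.length with hk | hk | hk
    · rw [pev_append_getD _ _ _ hk]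
      exact ih' k
    · have key : ∀ N : MvPolynomial ℕ ℤ, degreeOf s N = 0 →
          degreeOf s ((pev (fun s => (MvPolynomial.X s : MvPolynomial ℕ ℤ)) p ++ [N]).getD k 0) =
            0 := by
        intro N hN
        rw [hk, ← hlen, List.getD_append_right _ _ _ _ le_rfl, Nat.sub_self, List.getD_cons_zero]
        exact hN
      rw [pev_append_single]
      cases a with
      | cst c =>
        apply key
        have h : ((c : ℕ) : MvPolynomial ℕ ℤ) = C (c : ℤ) := by simp
        rw [h, degreeOf_C]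
      | add i j =>
        apply key
        apply Nat.eq_zero_of_le_zero
        refine (degreeOf_add_le _ _ _).trans (max_le ?_ ?_)
        · exact (ih' i).le
        · exact (ih' j).le
      | mul i j =>
        apply key
        dsimp only
        apply Nat.eq_zero_of_le_zero
        refine (degreeOf_mul_le _ _ _).trans ?_
        have h1 := ih' i
        have h2 := ih' j
        omega
      | pw i c =>
        apply key
        dsimp only
        apply Nat.eq_zero_of_le_zero
        refine (degreeOf_pow_le _ _ _).trans ?_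
        have h1 := ih' i
        rw [h1, Nat.mul_zero]
      | ex i =>
        apply key
        rw [degreeOf_X]
        have h1 : nex [Ins.ex i] = 1 := rfl
        rw [if_neg]
        omega
    · have h0 : (pev (fun s => (MvPolynomial.X s : MvPolynomial ℕ ℤ)) (p ++ [a])).getD k 0 = 0 := by
        apply List.getD_eq_default
        rw [pev_length]
        simp
        omega
      rw [h0, degreeOf_zero]

/-- In the source number `j` only the variables `s < j` occur (`exists_split` as in `pev_src_congr`). -/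
theorem degreeOf_src_eq_zero {p : List Ins} (hp : WF p) {j : ℕ} (hj : j < nex p) {s : ℕ} (hs : j ≤ s) :
    degreeOf s (PP p (src p j)) = 0 := by
  obtain ⟨q, r, i, hpq, hq, hi⟩ := exists_split p hj
  have hiq : i < q.length := hp q r (Ins.ex i) hpq
  have h1 : PP p (src p j) = PP q i := by
    rw [hi]
    unfold PP
    rw [hpq]
    exact pev_append_getD _ _ _ hiq
  rw [h1]
  exact degreeOf_PP_eq_zero q i (by omega)

/-- The number of monomials. -/
theorem card_support_le {P : MvPolynomial ℕ ℤ} {S Δ : ℕ} (h1 : ∀ s, degreeOf s P ≤ Δ)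
    (h2 : ∀ s, S ≤ s → degreeOf s P = 0) : P.support.card ≤ (Δ + 1) ^ S := by
  classical
  have hcard : (Fintype.piFinset fun _ : Fin S => Finset.range (Δ + 1)).card = (Δ + 1) ^ S := by
    rw [Fintype.card_piFinset]
    simp
  rw [← hcard]
  apply Finset.card_le_card_of_injOn (fun m => fun t : Fin S => m t.1)
  · intro m hm
    rw [Finset.mem_coe, Fintype.mem_piFinset]
    intro t
    rw [Finset.mem_range]
    change m t.1 < Δ + 1
    have h3 := monomial_le_degreeOf t.1 (f := P) (m := m) hm
    have h4 := h1 t.1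
    omega
  · intro m hm m' hm' h
    ext t
    rcases lt_or_ge t S with ht | ht
    · exact congrFun h ⟨t, ht⟩
    · have h3 := monomial_le_degreeOf t (f := P) (m := m) hm
      have h4 := monomial_le_degreeOf t (f := P) (m := m') hm'
      have h5 := h2 t ht
      omega

end Pool.Agent.HS
end

section

/-!
Integer vectors orthogonal to given integer vectors.
-/

set_option autoImplicit false

namespace Pool.Agent.HS

private theorem K1_cols {d τ : ℕ} (c : Fin τ → Fin d → ℤ) (hc : LinearIndependent ℤ c) :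
    ∃ a : Fin τ → Fin d, Function.Injective a ∧
      (Matrix.of fun l i => c l (a i)).det ≠ 0 := by
  have h1 : LinearIndependent ℤ fun l => fun j => ((c l j : ℤ) : ℚ) := by
    rw [Fintype.linearIndependent_iff] at hc ⊢
    intro g hg
    refine hc g ?_
    funext j
    have h2 := congrFun hg j
    simp only [Finset.sum_apply, Pi.smul_apply, Pi.zero_apply] at h2 ⊢
    simp only [zsmul_eq_mul] at h2
    simp only [smul_eq_mul]
    exact_mod_cast h2
  have h2 : LinearIndependent ℚ fun l => fun j => ((c l j : ℤ) : ℚ) :=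
    (LinearIndependent.iff_fractionRing ℤ ℚ).1 h1
  obtain ⟨A, hA⟩ : ∃ A : Matrix (Fin τ) (Fin d) ℚ, A = Matrix.of fun l j => ((c l j : ℤ) : ℚ) :=
    ⟨_, rfl⟩
  have h3 : LinearIndependent ℚ A.row := by rw [hA]; exact h2
  have h4 : A.rank = τ := by rw [h3.rank_matrix, Fintype.card_fin]
  rw [Matrix.rank_eq_finrank_span_cols] at h4
  obtain ⟨κ, a, ha, hspan, hli⟩ := exists_linearIndependent' ℚ A.col
  have hfin : Finite κ := Finite.of_injective a ha
  have hft : Fintype κ := Fintype.ofFinite κ
  have hcard : Fintype.card κ = τ := by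
    rw [← h4, ← hspan, finrank_span_eq_card hli]
  obtain ⟨e⟩ : Nonempty (Fin τ ≃ κ) := ⟨(Fintype.equivFinOfCardEq hcard).symm⟩
  refine ⟨fun i => a (e i), ha.comp e.injective, ?_⟩
  have h5 : LinearIndependent ℚ (A.submatrix id fun i => a (e i)).col := by
    have := hli.comp e e.injective
    exact this
  rw [Matrix.linearIndependent_cols_iff_isUnit, Matrix.isUnit_iff_isUnit_det, isUnit_iff_ne_zero] at h5
  intro h6
  apply h5
  have h7 : A.submatrix id (fun i => a (e i)) =
      (Matrix.of fun l i => c l (a (e i))).map (Int.castRingHom ℚ) := by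
    ext l i
    rw [hA]
    rfl
  rw [h7]
  have h8 := (Int.castRingHom ℚ).map_det (Matrix.of fun l i => c l (a (e i)))
  rw [h6, map_zero] at h8
  exact h8.symm

private theorem K1_fac {d τ X : ℕ} (hX : 1 ≤ X) (hτ : τ ≤ d) (hd : 1 ≤ d) :
    τ.factorial * X ^ τ ≤ (d * X) ^ d := by
  calc τ.factorial * X ^ τ ≤ τ ^ τ * X ^ τ := Nat.mul_le_mul_right _ (Nat.factorial_le_pow τ)
    _ = (τ * X) ^ τ := (mul_pow _ _ _).symm
    _ ≤ (d * X) ^ τ := Nat.pow_le_pow_left (Nat.mul_le_mul_right _ hτ) _
    _ ≤ (d * X) ^ d := Nat.pow_le_pow_right (Nat.mul_pos hd hX) hτ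

private theorem K1_det {d τ X : ℕ} (hX : 1 ≤ X) (hτ : τ ≤ d) (hd : 1 ≤ d)
    (M : Matrix (Fin τ) (Fin τ) ℤ) (hM : ∀ i j, |M i j| ≤ X) :
    |M.det| ≤ ((d * X) ^ d : ℕ) := by
  have h := Matrix.det_le (A := M) (abv := AbsoluteValue.abs) (x := (X : ℤ)) hM
  rw [Fintype.card_fin] at h
  refine le_trans h ?_
  rw [nsmul_eq_mul]
  exact_mod_cast K1_fac hX hτ hd

/-- Let `c 0, ..., c (τ - 1)` be linearly independent integer vectors of length `d` with entries at most `X` in
absolute value. There are `d - τ` linearly independent integer vectors orthogonal to all of them, with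
entries at most `(d * X) ^ d`.
Proof (Cramer). Let `A` be the `τ × d` matrix with the rows `c l`; it has rank `τ`, so some `τ` columns
`I` form a nonsingular matrix `A_I`. For every column `j` not in `I` let `v j` be the vector with the entry
`det A_I` at `j`, the entries `- (adjugate A_I * A_j) i` at `i ∈ I` (`A_j` = column `j`) and `0` elsewhere: `A * v j =
det A_I * A_j - A_I * adjugate A_I * A_j = 0`. The entries are minors of `A` up to the sign
(Cramer's rule, `Matrix.cramer`), so at most `τ! * X ^ τ ≤ (d * X) ^ d` (`X ≥ 1`; `Matrix.det_le` or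
`Matrix.det_apply`). They are linearly independent, because `v j` has a nonzero entry at `j` and the others
have `0` there. -/
theorem kernel_basis {d τ X : ℕ} (hX : 1 ≤ X) (hτ : τ ≤ d) (c : Fin τ → Fin d → ℤ)
    (hc : LinearIndependent ℤ c) (hb : ∀ l j, |c l j| ≤ X) :
    ∃ v : Fin (d - τ) → Fin d → ℤ, LinearIndependent ℤ v ∧ (∀ k j, |v k j| ≤ ((d * X) ^ d : ℕ)) ∧
      ∀ k l, ∑ j, c l j * v k j = 0 := by
  obtain ⟨a, ha, hdet⟩ := K1_cols c hc
  obtain ⟨M, hM⟩ : ∃ M : Matrix (Fin τ) (Fin τ) ℤ, M = Matrix.of fun l i => c l (a i) := ⟨_, rfl⟩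
  rw [← hM] at hdet
  have hcJ : Fintype.card {j : Fin d // j ∉ Finset.univ.image a} = d - τ := by
    rw [Fintype.card_subtype_compl, Fintype.card_fin]
    congr 1
    rw [Fintype.card_coe, Finset.card_image_of_injective _ ha, Finset.card_univ, Fintype.card_fin]
  obtain ⟨e⟩ : Nonempty (Fin (d - τ) ≃ {j : Fin d // j ∉ Finset.univ.image a}) :=
    ⟨(Fintype.equivFinOfCardEq hcJ).symm⟩
  have hea : ∀ k i, a i ≠ (e k).1 := fun k i h =>
    (e k).2 (Finset.mem_image.2 ⟨i, Finset.mem_univ _, h⟩)
  obtain ⟨w, hw⟩ : ∃ w : Fin (d - τ) → Fin τ → ℤ,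
      w = fun k => Matrix.cramer M fun l => c l (e k).1 := ⟨_, rfl⟩
  obtain ⟨v, hv⟩ : ∃ v : Fin (d - τ) → Fin d → ℤ, v = fun k j =>
      M.det * (if (e k).1 = j then 1 else 0) - ∑ i, w k i * (if a i = j then 1 else 0) := ⟨_, rfl⟩
  have hv1 : ∀ k k', v k (e k').1 = if k = k' then M.det else 0 := by
    intro k k'
    rw [hv]
    have h1 : ∑ i, w k i * (if a i = (e k').1 then (1 : ℤ) else 0) = 0 :=
      Finset.sum_eq_zero fun i _ => by rw [if_neg (hea k' i), mul_zero]
    simp only [h1, sub_zero]
    by_cases hk : k = k'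
    · subst hk
      simp
    · rw [if_neg hk, if_neg (fun h => hk (e.injective (Subtype.ext h))), mul_zero]
  have hv2 : ∀ k i, v k (a i) = - w k i := by
    intro k i
    rw [hv]
    have h1 : ∑ i', w k i' * (if a i' = a i then (1 : ℤ) else 0) = w k i := by
      rw [Finset.sum_eq_single i]
      · simp
      · intro i' _ h
        rw [if_neg (fun h' => h (ha h')), mul_zero]
      · intro h
        exact absurd (Finset.mem_univ i) h
    simp only [h1, if_neg (fun h => hea k i (Eq.symm h) : ¬ (e k).1 = a i), mul_zero, zero_sub]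
  refine ⟨v, ?_, ?_, ?_⟩
  · rw [Fintype.linearIndependent_iff]
    intro g hg k
    have h1 := congrFun hg (e k).1
    simp only [Finset.sum_apply, Pi.smul_apply, Pi.zero_apply, smul_eq_mul, hv1] at h1
    rw [Finset.sum_eq_single k] at h1
    · rw [if_pos rfl] at h1
      exact (mul_eq_zero.1 h1).resolve_right hdet
    · intro k' _ h
      rw [if_neg h, mul_zero]
    · intro h
      exact absurd (Finset.mem_univ k) h
  · intro k j
    have hd : 1 ≤ d := by
      have := k.2
      omega
    by_cases hj : j ∈ Finset.univ.image a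
    · obtain ⟨i, _, rfl⟩ := Finset.mem_image.1 hj
      rw [hv2, abs_neg, hw]
      change |Matrix.cramer M (fun l => c l (e k).1) i| ≤ _
      rw [Matrix.cramer_apply]
      refine K1_det hX hτ hd _ fun l m => ?_
      rw [Matrix.updateCol_apply]
      split_ifs
      · exact hb _ _
      · rw [hM]
        exact hb _ _
    · obtain ⟨k', hk'⟩ := e.surjective ⟨j, hj⟩
      have h1 : j = (e k').1 := by rw [hk']
      rw [h1, hv1]
      split_ifs
      · refine K1_det hX hτ hd _ fun l m => ?_
        rw [hM]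
        exact hb _ _
      · rw [abs_zero]
        positivity
  · intro k l
    have h1 : ∑ i, M l i * w k i = M.det * c l (e k).1 := by
      have h2 := congrFun (Matrix.mulVec_cramer M fun l => c l (e k).1) l
      rw [hw]
      exact h2
    have h3 : ∑ j, c l j * v k j = M.det * c l (e k).1 - ∑ i, c l (a i) * w k i := by
      rw [hv]
      simp only [mul_sub, Finset.sum_sub_distrib]
      congr 1
      · rw [Finset.sum_eq_single (e k).1]
        · rw [if_pos rfl]; ring
        · intro j _ h
          rw [if_neg (Ne.symm h)]; ring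
        · intro h
          exact absurd (Finset.mem_univ _) h
      · simp only [Finset.mul_sum]
        rw [Finset.sum_comm]
        refine Finset.sum_congr rfl fun i _ => ?_
        rw [Finset.sum_eq_single (a i)]
        · rw [if_pos rfl]; ring
        · intro j _ h
          rw [if_neg (Ne.symm h)]; ring
        · intro h
          exact absurd (Finset.mem_univ _) h
    rw [h3, ← h1, hM]
    exact sub_self _

end Pool.Agent.HS
end

section

/-!
A random number does not divide a fixed number of moderate size.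
-/

set_option autoImplicit false

namespace Pool.Agent.HS

/-- There are at least `2 ^ m / m - 1` primes up to `2 ^ m`. Proof: with `k = 2 ^ (m - 1)`:
`4 ^ k ≤ 2 * k * centralBinom k` (`Nat.four_pow_le_two_mul_self_mul_centralBinom`) and
`centralBinom k = ∏ p ≤ 2 k, p ^ (factorization)` where every factor is at most `2 * k = 2 ^ m`
(`Nat.pow_factorization_choose_le`), so `2 ^ (2 ^ m) ≤ 2 ^ m * (2 ^ m) ^ (number of primes)`, i.e.
`2 ^ m ≤ m + m * (number of primes)`. -/
theorem prime_count {m : ℕ} (hm : 1 ≤ m) :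
    2 ^ m ≤ m * (((Finset.range (2 ^ m + 1)).filter Nat.Prime).card + 1) := by
  obtain ⟨j, rfl⟩ : ∃ j, m = j + 1 := ⟨m - 1, by omega⟩
  have hk : 2 * 2 ^ j = 2 ^ (j + 1) := by rw [pow_succ]; ring
  have h1 := Nat.four_pow_le_two_mul_self_mul_centralBinom (2 ^ j) (by positivity)
  have h2 : Nat.centralBinom (2 ^ j) ≤
      (2 ^ (j + 1)) ^ ((Finset.range (2 ^ (j + 1) + 1)).filter Nat.Prime).card := by
    calc Nat.centralBinom (2 ^ j) = ∏ p ∈ Finset.range (2 * 2 ^ j + 1),
          p ^ (Nat.centralBinom (2 ^ j)).factorization p :=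
          (Nat.prod_pow_factorization_centralBinom (2 ^ j)).symm
      _ = ∏ p ∈ (Finset.range (2 * 2 ^ j + 1)).filter Nat.Prime,
          p ^ (Nat.centralBinom (2 ^ j)).factorization p := by
          refine (Finset.prod_subset (Finset.filter_subset _ _) ?_).symm
          intro p _ hp
          have : ¬ p.Prime := by
            intro h
            exact hp (Finset.mem_filter.2 ⟨by assumption, h⟩)
          rw [Nat.factorization_eq_zero_of_not_prime _ this, pow_zero]
      _ ≤ ∏ p ∈ (Finset.range (2 * 2 ^ j + 1)).filter Nat.Prime, 2 ^ (j + 1) := by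
          refine Finset.prod_le_prod' fun p _ => ?_
          rw [Nat.centralBinom_eq_two_mul_choose, ← hk]
          exact Nat.pow_factorization_choose_le (by positivity)
      _ = (2 ^ (j + 1)) ^ ((Finset.range (2 ^ (j + 1) + 1)).filter Nat.Prime).card := by
          rw [Finset.prod_const, hk]
  have h3 : (2 : ℕ) ^ (2 ^ (j + 1)) ≤
      2 ^ ((j + 1) * (((Finset.range (2 ^ (j + 1) + 1)).filter Nat.Prime).card + 1)) := by
    calc (2 : ℕ) ^ (2 ^ (j + 1)) = 4 ^ (2 ^ j) := by
          rw [← hk, pow_mul]; norm_num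
      _ ≤ 2 * 2 ^ j * Nat.centralBinom (2 ^ j) := h1
      _ ≤ 2 ^ (j + 1) * (2 ^ (j + 1)) ^ ((Finset.range (2 ^ (j + 1) + 1)).filter Nat.Prime).card := by
          rw [hk]; exact Nat.mul_le_mul_left _ h2
      _ = 2 ^ ((j + 1) * (((Finset.range (2 ^ (j + 1) + 1)).filter Nat.Prime).card + 1)) := by
          rw [pow_mul, pow_succ]; ring
  exact (Nat.pow_le_pow_iff_right (by norm_num)).1 h3

/-- A nonzero integer `V` with `|V| < 2 ^ 2 ^ σ` has at most `2 ^ σ` prime divisors: their product divides `V`
and is at least `2 ^ (their number)`. -/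
theorem card_prime_dvd {σ : ℕ} {V : ℤ} (h0 : V ≠ 0) (hV : |V| < 2 ^ 2 ^ σ) (N : ℕ) :
    ((Finset.range (N + 1)).filter fun p : ℕ => p.Prime ∧ (p : ℤ) ∣ V).card ≤ 2 ^ σ := by
  set S := (Finset.range (N + 1)).filter fun p : ℕ => p.Prime ∧ (p : ℤ) ∣ V with hS
  have h1 : (∏ p ∈ S, p) ∣ V.natAbs := by
    refine Finset.prod_primes_dvd _ ?_ ?_
    · intro p hp
      exact (Finset.mem_filter.1 hp).2.1.prime
    · intro p hp
      exact Int.natCast_dvd.1 (Finset.mem_filter.1 hp).2.2
  have hpos : 0 < V.natAbs := Int.natAbs_pos.2 h0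
  have h2 : 2 ^ S.card ≤ V.natAbs := by
    calc 2 ^ S.card = ∏ p ∈ S, 2 := by rw [Finset.prod_const]
      _ ≤ ∏ p ∈ S, p := Finset.prod_le_prod' fun p hp => (Finset.mem_filter.1 hp).2.1.two_le
      _ ≤ V.natAbs := Nat.le_of_dvd hpos h1
  have h3 : V.natAbs < 2 ^ 2 ^ σ := by
    have : ((V.natAbs : ℕ) : ℤ) < ((2 ^ 2 ^ σ : ℕ) : ℤ) := by
      push_cast
      exact hV
    exact_mod_cast this
  have h4 : 2 ^ S.card < 2 ^ 2 ^ σ := lt_of_le_of_lt h2 h3
  exact ((Nat.pow_lt_pow_iff_right (by norm_num)).1 h4).le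

/-- Among the numbers `1, ..., 2 ^ (2 σ)` the proportion of divisors of `V` is at most `1 - 1 / (4 σ)`: at least
`2 ^ (2 σ) / (2 σ) - 1 - 2 ^ σ ≥ 2 ^ (2 σ) / (4 σ)` of them are primes which do not divide `V`. -/
theorem card_dvd {σ : ℕ} (hσ : 6 ≤ σ) {V : ℤ} (h0 : V ≠ 0) (hV : |V| < 2 ^ 2 ^ σ) :
    (2 * (2 * σ)) * (Finset.univ.filter fun M : Fin (2 ^ (2 * σ)) => (((M : ℕ) + 1 : ℕ) : ℤ) ∣ V).card ≤
      (2 * (2 * σ) - 1) * 2 ^ (2 * σ) := by
  set N := 2 ^ (2 * σ) with hN
  set D := Finset.univ.filter fun M : Fin N => (((M : ℕ) + 1 : ℕ) : ℤ) ∣ V with hD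
  have hp := prime_count (m := 2 * σ) (by omega)
  rw [← hN] at hp
  set P := (Finset.range (N + 1)).filter Nat.Prime with hP
  have hq := card_prime_dvd h0 hV N
  set S := (Finset.range (N + 1)).filter fun p : ℕ => p.Prime ∧ (p : ℤ) ∣ V with hS
  -- D injects into the divisors in [1, N]
  have h1 : D.card + (P \ S).card ≤ N := by
    have hD' : D.card = (D.image fun M : Fin N => (M : ℕ) + 1).card := by
      rw [Finset.card_image_of_injective]
      intro a b h
      ext
      simpa using h
    rw [hD', ← Finset.card_union_of_disjoint]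
    · calc _ ≤ (Finset.Icc 1 N).card := by
            refine Finset.card_le_card ?_
            intro x hx
            rcases Finset.mem_union.1 hx with hx | hx
            · obtain ⟨M, _, rfl⟩ := Finset.mem_image.1 hx
              have := M.2
              exact Finset.mem_Icc.2 ⟨by omega, by omega⟩
            · have hx' := (Finset.mem_sdiff.1 hx).1
              have hx2 := Finset.mem_filter.1 hx'
              have := Finset.mem_range.1 hx2.1
              have := hx2.2.one_lt
              exact Finset.mem_Icc.2 ⟨by omega, by omega⟩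
        _ = N := by simp
    · rw [Finset.disjoint_left]
      intro x hx hx'
      obtain ⟨M, hM, rfl⟩ := Finset.mem_image.1 hx
      have hM' := (Finset.mem_filter.1 hM).2
      have hx1 := Finset.mem_sdiff.1 hx'
      have hx2 := Finset.mem_filter.1 hx1.1
      exact hx1.2 (Finset.mem_filter.2 ⟨hx2.1, hx2.2, hM'⟩)
  have h2 : P.card ≤ (P \ S).card + 2 ^ σ := by
    have := Finset.card_le_card_sdiff_add_card (s := P) (t := S)
    omega
  have hNσ : N = 2 ^ σ * 2 ^ σ := by rw [hN, ← pow_add]; congr 1; omega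
  have h5 : 5 * σ ≤ 2 ^ σ := by
    clear_value N D P S
    induction σ, hσ using Nat.le_induction with
    | base => norm_num
    | succ k hk _ =>
      clear * - hk
      induction k, hk using Nat.le_induction with
      | base => norm_num
      | succ j hj ih => rw [pow_succ]; omega
  have h6 : 4 * σ + 4 * σ * 2 ^ σ ≤ N := by
    have h7 : 1 * σ * 4 ≤ σ * 2 ^ σ := by
      have : 4 ≤ 2 ^ σ := by omega
      nlinarith
    have : 5 * σ * 2 ^ σ ≤ 2 ^ σ * 2 ^ σ := Nat.mul_le_mul_right _ h5
    rw [hNσ]
    nlinarith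
  have h8 : 4 * σ * (D.card + (P \ S).card) ≤ 4 * σ * N := Nat.mul_le_mul_left _ h1
  have h9 : 2 * N ≤ 4 * σ * P.card + 4 * σ := by nlinarith
  have h10 : 4 * σ * P.card ≤ 4 * σ * (P \ S).card + 4 * σ * 2 ^ σ := by
    have := Nat.mul_le_mul_left (4 * σ) h2
    nlinarith
  have h11 : 2 * (2 * σ) * D.card + N ≤ 4 * σ * N := by
    nlinarith
  have h12 : (2 * (2 * σ) - 1) * N = 4 * σ * N - N := by
    rw [Nat.sub_mul]
    congr 1
    · ring
    · ring
  rw [h12]
  omega

private theorem t1_bern (a : ℕ) : ∀ n : ℕ, a ^ (n + 1) + (n + 1) * a ^ n ≤ (a + 1) ^ (n + 1)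
  | 0 => by simp
  | n + 1 => by
    have ih := t1_bern a n
    calc a ^ (n + 1 + 1) + (n + 1 + 1) * a ^ (n + 1)
        ≤ (a ^ (n + 1) + (n + 1) * a ^ n) * (a + 1) := by
          have : (a ^ (n + 1) + (n + 1) * a ^ n) * (a + 1) =
            a ^ (n + 1 + 1) + (n + 1 + 1) * a ^ (n + 1) + (n + 1) * a ^ n := by ring
          omega
      _ ≤ (a + 1) ^ (n + 1) * (a + 1) := Nat.mul_le_mul_right _ ih
      _ = (a + 1) ^ (n + 1 + 1) := by rw [pow_succ (a + 1) (n + 1)]

/-- Bernoulli: `2 * (M - 1) ^ M ≤ M ^ M`, then the power `t`. -/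
theorem pow_decay {M : ℕ} (hM : 1 ≤ M) (t : ℕ) : 2 ^ t * (M - 1) ^ (M * t) ≤ M ^ (M * t) := by
  obtain ⟨a, rfl⟩ : ∃ a, M = a + 1 := ⟨M - 1, by omega⟩
  have h1 : 2 * a ^ (a + 1) ≤ (a + 1) ^ (a + 1) := by
    have := t1_bern a a
    calc 2 * a ^ (a + 1) ≤ a ^ (a + 1) + (a + 1) * a ^ a := by
          have : (a + 1) * a ^ a = a ^ (a + 1) + a ^ a := by ring
          omega
      _ ≤ _ := this
  rw [Nat.add_sub_cancel, pow_mul, pow_mul, ← mul_pow]
  exact Nat.pow_le_pow_left h1 t

end Pool.Agent.HS
end

section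

/-!
Random evaluation of a family of polynomials modulo a random number.
-/

set_option autoImplicit false

namespace Pool.Agent.HS

open MvPolynomial

/-- Schwartz and Zippel: `MvPolynomial.schwartz_zippel_totalDegree` (or `schwartz_zippel_sum_degreeOf`) for the
set of the numbers `1, ..., N`, transported to `Fin n → Fin N`. -/
theorem sz {n N : ℕ} (φ : MvPolynomial (Fin n) ℤ) (h : φ ≠ 0) :
    N * (Finset.univ.filter fun z : Fin n → Fin N =>
      eval (fun l => (((z l : ℕ) + 1 : ℕ) : ℤ)) φ = 0).card ≤ φ.totalDegree * N ^ n := by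
  classical
  rcases Nat.eq_zero_or_pos N with hN | hN
  · simp [hN]
  let g : Fin N → ℤ := fun j => (((j : ℕ) + 1 : ℕ) : ℤ)
  have hg : Function.Injective g := by
    intro i j hij
    have h1 : ((i : ℕ) + 1 : ℕ) = (j : ℕ) + 1 := Int.natCast_inj.1 hij
    exact Fin.ext (by omega)
  let S : Finset ℤ := Finset.univ.image g
  have hS : S.card = N := by
    rw [Finset.card_image_of_injective _ hg, Finset.card_univ, Fintype.card_fin]
  have h1 := schwartz_zippel_totalDegree h S
  rw [hS] at h1
  have hcard : (Finset.univ.filter fun z : Fin n → Fin N =>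
      eval (fun l => (((z l : ℕ) + 1 : ℕ) : ℤ)) φ = 0).card ≤
      ((Fintype.piFinset fun _ : Fin n => S).filter fun f => eval f φ = 0).card := by
    refine Finset.card_le_card_of_injOn (fun z l => g (z l)) ?_ ?_
    · intro z hz
      rw [Finset.mem_coe, Finset.mem_filter] at hz
      rw [Finset.mem_coe, Finset.mem_filter, Fintype.mem_piFinset]
      exact ⟨fun l => Finset.mem_image_of_mem _ (Finset.mem_univ _), hz.2⟩
    · intro z _ w _ hzw
      funext l
      exact hg (congrFun hzw l)
  have hN' : (0 : ℚ≥0) < N := by exact_mod_cast hN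
  rw [div_le_div_iff₀ (pow_pos hN' n) hN'] at h1
  have h2 : ((Fintype.piFinset fun _ : Fin n => S).filter fun f => eval f φ = 0).card * N ≤
      φ.totalDegree * N ^ n := by exact_mod_cast h1
  calc N * _ ≤ N * ((Fintype.piFinset fun _ : Fin n => S).filter fun f => eval f φ = 0).card :=
        Nat.mul_le_mul_left _ hcard
    _ = ((Fintype.piFinset fun _ : Fin n => S).filter fun f => eval f φ = 0).card * N :=
        Nat.mul_comm _ _
    _ ≤ _ := h2

/-- For a fixed nonzero integer the probability that the random modulus (a product of `tn n` random numbers) divides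
it is at most `2 ^ (- t0 n)`: all factors divide it; `card_dvd` with `σ = sig n` (`em n = 2 * sig n`, `6 ≤ sig n`),
`pow_decay` with `M = 2 * em n`, `t = t0 n` (`tn n = 2 * em n * t0 n`). -/
theorem card_mOf_dvd (n : ℕ) {V : ℤ} (h0 : V ≠ 0) (hV : |V| < 2 ^ 2 ^ sig n) :
    2 ^ t0 n * (Finset.univ.filter fun w : Fin (tn n) → Fin (2 ^ em n) =>
      ((∏ t, ((w t : ℕ) + 1) : ℕ) : ℤ) ∣ V).card ≤ (2 ^ em n) ^ tn n := by
  classical
  have hs : 6 ≤ sig n := by unfold sig; omega
  have h1 := card_dvd hs h0 hV
  set c : ℕ := (Finset.univ.filter fun M : Fin (2 ^ em n) => (((M : ℕ) + 1 : ℕ) : ℤ) ∣ V).card with hc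
  have h1' : 2 * em n * c ≤ (2 * em n - 1) * 2 ^ em n := h1
  have hle : (Finset.univ.filter fun w : Fin (tn n) → Fin (2 ^ em n) =>
      ((∏ t, ((w t : ℕ) + 1) : ℕ) : ℤ) ∣ V).card ≤ c ^ tn n := by
    calc _ ≤ (Fintype.piFinset fun _ : Fin (tn n) =>
          Finset.univ.filter fun M : Fin (2 ^ em n) => (((M : ℕ) + 1 : ℕ) : ℤ) ∣ V).card := by
          refine Finset.card_le_card ?_
          intro w hw
          rw [Finset.mem_filter] at hw
          rw [Fintype.mem_piFinset]
          intro t
          rw [Finset.mem_filter]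
          refine ⟨Finset.mem_univ _, dvd_trans ?_ hw.2⟩
          exact_mod_cast Finset.dvd_prod_of_mem (fun t => (w t : ℕ) + 1) (Finset.mem_univ t)
      _ = c ^ tn n := by
          rw [Fintype.card_piFinset_const]
  have hD : 1 ≤ 2 * em n := by unfold em; omega
  have h2 := pow_decay hD (t0 n)
  have h3 : 2 * em n * t0 n = tn n := rfl
  rw [h3] at h2
  have hpos : 0 < (2 * em n) ^ tn n := pow_pos (by omega) _
  refine Nat.le_of_mul_le_mul_right ?_ hpos
  calc 2 ^ t0 n * (Finset.univ.filter fun w : Fin (tn n) → Fin (2 ^ em n) =>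
        ((∏ t, ((w t : ℕ) + 1) : ℕ) : ℤ) ∣ V).card * (2 * em n) ^ tn n
      ≤ 2 ^ t0 n * c ^ tn n * (2 * em n) ^ tn n :=
        Nat.mul_le_mul_right _ (Nat.mul_le_mul_left _ hle)
    _ = 2 ^ t0 n * (2 * em n * c) ^ tn n := by rw [mul_pow]; ring
    _ ≤ 2 ^ t0 n * ((2 * em n - 1) * 2 ^ em n) ^ tn n :=
        Nat.mul_le_mul_left _ (Nat.pow_le_pow_left h1' _)
    _ = (2 ^ t0 n * (2 * em n - 1) ^ tn n) * (2 ^ em n) ^ tn n := by rw [mul_pow]; ring
    _ ≤ (2 * em n) ^ tn n * (2 ^ em n) ^ tn n := Nat.mul_le_mul_right _ h2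
    _ = (2 ^ em n) ^ tn n * (2 * em n) ^ tn n := Nat.mul_comm _ _

/-- TEST LEMMA. Let `Φ` be a set of at most `2 ^ ((kap n + 2) * n)` nonzero polynomials of small degree and with
values of moderate size. The probability that the random modulus divides the value of one of them at the random
point is at most `2 ^ (- n - 2)`.
Proof: the probability that the value of some polynomial is `0` is at most
`2 ^ ((kap n + 2) * n) * n * 2 ^ (gam n + 2 * n + 1) / 2 ^ mu n ≤ 2 ^ (- n - 3)` (`sz`, union bound,
`mu n = gam n + (kap n + 2) * n + 4 * n + 8`, `n ≤ 2 ^ n`). For every point where no value is `0`, the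
probability that the modulus divides one of the values is at most `2 ^ ((kap n + 2) * n) * 2 ^ (- t0 n) = 2 ^ (- n - 3)`
(`card_mOf_dvd`). -/
theorem test_bound {n : ℕ} (Φ : Finset (MvPolynomial (Fin n) ℤ))
    (hΦ : Φ.card ≤ 2 ^ ((kap n + 2) * n)) (h0 : ∀ φ ∈ Φ, φ ≠ 0)
    (hd : ∀ φ ∈ Φ, φ.totalDegree ≤ n * 2 ^ (gam n + 2 * n + 1))
    (hs : ∀ φ ∈ Φ, ∀ z : Fin n → ℕ, (∀ l, z l ≤ 2 ^ mu n) →
      |eval (fun l => (z l : ℤ)) φ| < 2 ^ 2 ^ sig n) :
    2 ^ (n + 2) * (Finset.univ.filter fun ω : Om n =>
      ∃ φ ∈ Φ, (mOf ω : ℤ) ∣ eval (fun l => (zOf ω l : ℤ)) φ).card ≤ Fintype.card (Om n) := by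
  classical
  set Z : ℕ := (2 ^ mu n) ^ n with hZ
  set W : ℕ := (2 ^ em n) ^ tn n with hW
  have hcardOm : Fintype.card (Om n) = Z * W := by
    rw [Fintype.card_prod, Fintype.card_fun, Fintype.card_fun, Fintype.card_fin, Fintype.card_fin,
      Fintype.card_fin, Fintype.card_fin]
  -- the zero points
  let A : MvPolynomial (Fin n) ℤ → Finset (Fin n → Fin (2 ^ mu n)) := fun φ =>
    Finset.univ.filter fun z => eval (fun l => (((z l : ℕ) + 1 : ℕ) : ℤ)) φ = 0
  let B : MvPolynomial (Fin n) ℤ → (Fin n → Fin (2 ^ mu n)) → Finset (Fin (tn n) → Fin (2 ^ em n)) :=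
    fun φ z => Finset.univ.filter fun w => eval (fun l => (((z l : ℕ) + 1 : ℕ) : ℤ)) φ ≠ 0 ∧
      ((∏ t, ((w t : ℕ) + 1) : ℕ) : ℤ) ∣ eval (fun l => (((z l : ℕ) + 1 : ℕ) : ℤ)) φ
  have hA : ∀ φ ∈ Φ, 2 ^ mu n * (A φ).card ≤ (n * 2 ^ (gam n + 2 * n + 1)) * Z := by
    intro φ hφ
    exact (sz φ (h0 φ hφ)).trans (Nat.mul_le_mul_right _ (hd φ hφ))
  have hB : ∀ φ ∈ Φ, ∀ z, 2 ^ t0 n * (B φ z).card ≤ W := by
    intro φ hφ z
    by_cases hz : eval (fun l => (((z l : ℕ) + 1 : ℕ) : ℤ)) φ = 0
    · have : B φ z = ∅ := by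
        refine Finset.filter_eq_empty_iff.2 ?_
        intro w _ hw
        exact hw.1 hz
      rw [this]
      simp
    · refine le_trans (Nat.mul_le_mul_left _ (Finset.card_le_card ?_)) (card_mOf_dvd n hz
        (hs φ hφ (fun l => (z l : ℕ) + 1) (fun l => (z l).isLt)))
      intro w hw
      rw [Finset.mem_filter] at hw ⊢
      exact ⟨hw.1, hw.2.2⟩
  -- the union bound
  have hsub : (Finset.univ.filter fun ω : Om n =>
      ∃ φ ∈ Φ, (mOf ω : ℤ) ∣ eval (fun l => (zOf ω l : ℤ)) φ) ⊆
      (Φ.biUnion fun φ => A φ ×ˢ (Finset.univ : Finset (Fin (tn n) → Fin (2 ^ em n)))) ∪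
      (Φ.biUnion fun φ => (Finset.univ : Finset (Fin n → Fin (2 ^ mu n))).biUnion fun z =>
        {z} ×ˢ B φ z) := by
    intro ω hω
    rw [Finset.mem_filter] at hω
    obtain ⟨_, φ, hφ, hdv⟩ := hω
    rw [Finset.mem_union, Finset.mem_biUnion, Finset.mem_biUnion]
    by_cases hz : eval (fun l => (((ω.1 l : ℕ) + 1 : ℕ) : ℤ)) φ = 0
    · left
      refine ⟨φ, hφ, ?_⟩
      rw [Finset.mem_product, Finset.mem_filter]
      exact ⟨⟨Finset.mem_univ _, hz⟩, Finset.mem_univ _⟩
    · right
      refine ⟨φ, hφ, ?_⟩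
      rw [Finset.mem_biUnion]
      refine ⟨ω.1, Finset.mem_univ _, ?_⟩
      rw [Finset.mem_product, Finset.mem_filter, Finset.mem_singleton]
      exact ⟨rfl, Finset.mem_univ _, hz, hdv⟩
  have h1 : (Finset.univ.filter fun ω : Om n =>
      ∃ φ ∈ Φ, (mOf ω : ℤ) ∣ eval (fun l => (zOf ω l : ℤ)) φ).card ≤
      (∑ φ ∈ Φ, (A φ).card * W) + ∑ φ ∈ Φ, ∑ z, (B φ z).card := by
    refine (Finset.card_le_card hsub).trans ((Finset.card_union_le _ _).trans (Nat.add_le_add ?_ ?_))
    · refine Finset.card_biUnion_le.trans (Finset.sum_le_sum fun φ _ => ?_)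
      rw [Finset.card_product, Finset.card_univ, Fintype.card_fun, Fintype.card_fin, Fintype.card_fin]
    · refine Finset.card_biUnion_le.trans (Finset.sum_le_sum fun φ _ => ?_)
      refine Finset.card_biUnion_le.trans (Finset.sum_le_sum fun z _ => ?_)
      rw [Finset.card_product, Finset.card_singleton, one_mul]
  -- first part
  have hn : n ≤ 2 ^ n := Nat.lt_two_pow_self.le
  have h2 : 2 ^ (n + 3) * ∑ φ ∈ Φ, (A φ).card ≤ Z := by
    have h3 : 2 ^ mu n * ∑ φ ∈ Φ, (A φ).card ≤
        2 ^ ((kap n + 2) * n) * ((n * 2 ^ (gam n + 2 * n + 1)) * Z) := by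
      rw [Finset.mul_sum]
      calc ∑ φ ∈ Φ, 2 ^ mu n * (A φ).card ≤ ∑ φ ∈ Φ, (n * 2 ^ (gam n + 2 * n + 1)) * Z :=
            Finset.sum_le_sum hA
        _ = Φ.card * ((n * 2 ^ (gam n + 2 * n + 1)) * Z) := by
            rw [Finset.sum_const, smul_eq_mul]
        _ ≤ _ := Nat.mul_le_mul_right _ hΦ
    have hpos : 0 < 2 ^ mu n := by positivity
    refine Nat.le_of_mul_le_mul_left ?_ hpos
    calc 2 ^ mu n * (2 ^ (n + 3) * ∑ φ ∈ Φ, (A φ).card)
        = 2 ^ (n + 3) * (2 ^ mu n * ∑ φ ∈ Φ, (A φ).card) := by ring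
      _ ≤ 2 ^ (n + 3) * (2 ^ ((kap n + 2) * n) * ((n * 2 ^ (gam n + 2 * n + 1)) * Z)) :=
          Nat.mul_le_mul_left _ h3
      _ ≤ 2 ^ (n + 3) * (2 ^ ((kap n + 2) * n) * ((2 ^ n * 2 ^ (gam n + 2 * n + 1)) * Z)) := by
          gcongr
      _ = 2 ^ (n + 3 + (kap n + 2) * n + n + (gam n + 2 * n + 1)) * Z := by
          rw [pow_add 2 (n + 3 + (kap n + 2) * n + n), pow_add 2 (n + 3 + (kap n + 2) * n),
            pow_add 2 (n + 3)]
          ring
      _ ≤ 2 ^ mu n * Z := by
          refine Nat.mul_le_mul_right _ (Nat.pow_le_pow_right (by norm_num) ?_)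
          unfold mu
          omega
  -- second part
  have h4 : 2 ^ (n + 3) * ∑ φ ∈ Φ, ∑ z, (B φ z).card ≤ Z * W := by
    have h5 : 2 ^ t0 n * ∑ φ ∈ Φ, ∑ z, (B φ z).card ≤ 2 ^ ((kap n + 2) * n) * (Z * W) := by
      rw [Finset.mul_sum]
      calc ∑ φ ∈ Φ, 2 ^ t0 n * ∑ z, (B φ z).card ≤ ∑ φ ∈ Φ, Z * W := by
            refine Finset.sum_le_sum fun φ hφ => ?_
            rw [Finset.mul_sum]
            calc ∑ z, 2 ^ t0 n * (B φ z).card ≤ ∑ z : Fin n → Fin (2 ^ mu n), W :=
                  Finset.sum_le_sum fun z _ => hB φ hφ z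
              _ = Z * W := by
                  rw [Finset.sum_const, smul_eq_mul, Finset.card_univ, Fintype.card_fun,
                    Fintype.card_fin, Fintype.card_fin]
        _ = Φ.card * (Z * W) := by rw [Finset.sum_const, smul_eq_mul]
        _ ≤ _ := Nat.mul_le_mul_right _ hΦ
    have ht : t0 n = (kap n + 2) * n + (n + 3) := by unfold t0; omega
    rw [ht, pow_add, mul_assoc] at h5
    exact Nat.le_of_mul_le_mul_left h5 (by positivity)
  rw [hcardOm]
  have h6 : 2 ^ (n + 3) * (Finset.univ.filter fun ω : Om n =>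
      ∃ φ ∈ Φ, (mOf ω : ℤ) ∣ eval (fun l => (zOf ω l : ℤ)) φ).card ≤ Z * W + Z * W := by
    calc _ ≤ 2 ^ (n + 3) * ((∑ φ ∈ Φ, (A φ).card * W) + ∑ φ ∈ Φ, ∑ z, (B φ z).card) :=
          Nat.mul_le_mul_left _ h1
      _ = (2 ^ (n + 3) * ∑ φ ∈ Φ, (A φ).card) * W +
          2 ^ (n + 3) * ∑ φ ∈ Φ, ∑ z, (B φ z).card := by
          rw [mul_add, ← Finset.sum_mul, mul_assoc]
      _ ≤ _ := Nat.add_le_add (Nat.mul_le_mul_right _ h2) h4
  have h7 : 2 ^ (n + 3) = 2 * 2 ^ (n + 2) := by rw [pow_succ 2 (n + 2)]; ring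
  rw [h7, mul_assoc] at h6
  omega

end Pool.Agent.HS
end
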